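import Pool.Agent.H547.F16

set_option autoImplicit false

/-!
# `Z_p(16)` modulo `p²`

For `X = s/(1+8s)²`, `Y = s²/(1+4s)³`, `Y' = s/(1+16s)³` the truncated sums `A(X) = ∑_{n<p} C(2n,n) f_n Xⁿ` and
`S(Y) = ∑_{k<p} C(2k,k)² C(3k,k) Yᵏ` satisfy modulo `p²`
`3 (1+8sᵖ)² A(X)/(1+8s) = 2 (1+4sᵖ)² S(Y)/(1+4s) + (1+16sᵖ)² S(Y')/(1+16s)`.
For `X = 1/16` the points `Y`, `Y'` are points with complex multiplication by `√-5`, defined over `ℚ(i, √5)`, on
which explicit isogenies of degrees `2`, `3` and `6` are available.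
-/

open Finset

namespace Pool.Agent.Results.MP_d4c4f0_nt.FranelSixteen

/-- the Franel numbers -/
def f (n : ℕ) : ℕ := ∑ k ∈ range (n + 1), (n.choose k) ^ 3

/-- the sum `Z_p(m) = ∑_{n<p} C(2n,n) f_n m^{-n}` -/
def Z (p : ℕ) (m : ℤ) : ℚ := ∑ n ∈ range p, ((2 * n).choose n : ℚ) * (f n : ℚ) / (m : ℚ) ^ n

/-- congruence modulo `p²` of rational numbers: `(a - b) / p²` has denominator prime to `p` -/
def Cong (p : ℕ) (a b : ℚ) : Prop := p.Coprime ((a - b) / (p : ℚ) ^ 2).den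

open Pool.Agent.H547 (AA)
open Pool.Agent.Q267.CDE (R)

theorem AA7 : ∀ wi : R 7, ((16 : ℤ) : R 7) * wi = 1 → AA 7 wi = ((4 : ℤ) : R 7) := by
  intro wi h
  have h1 : wi = 46 := by
    have h2 : (16 : R 7) * 46 = 1 := by decide
    push_cast at h
    linear_combination (-wi) * h2 + 46 * h
  rw [h1]
  decide

theorem result (p : ℕ) (hp : p.Prime) (h5 : 5 < p) :
    ((p % 20 = 1 ∨ p % 20 = 9) → ∀ x y : ℤ, (p : ℤ) = x ^ 2 + 5 * y ^ 2 →
      Cong p (Z p 16) (4 * (x : ℚ) ^ 2 - 2 * p)) ∧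
    ((p % 20 = 3 ∨ p % 20 = 7) → ∀ x y : ℤ, 2 * (p : ℤ) = x ^ 2 + 5 * y ^ 2 →
      Cong p (Z p 16) (2 * (x : ℚ) ^ 2 - 2 * p)) ∧
    ((p % 20 = 11 ∨ p % 20 = 13 ∨ p % 20 = 17 ∨ p % 20 = 19) → Cong p (Z p 16) 0) := by
  have : Fact p.Prime := ⟨hp⟩
  have hM : ¬ (p : ℤ) ∣ 16 := by
    have := Pool.Agent.H546.ndvd_of_primes p (n := 16) (l := [2, 2, 2, 2]) (by simp; norm_num)
      (by norm_num) (by simp; omega)
    exact_mod_cast this
  obtain ⟨wi, hwi⟩ := Pool.Agent.H546.inv_exists hM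
  have tr : ∀ E : ℤ, Pool.Agent.H547.AA p wi = ((E : ℤ) : ZMod (p ^ 2)) → Cong p (Z p 16) (E : ℚ) := by
    intro E hE
    have := Pool.Agent.H547.trA hM hwi E hE
    unfold Cong
    rw [Nat.Prime.coprime_iff_not_dvd hp]
    have e : Z p 16 = ∑ k ∈ range p, ((k.centralBinom : ℚ) * (Pool.Agent.H547.fr k : ℚ)) / ((16 : ℤ) : ℚ) ^ k := by
      unfold Z
      refine sum_congr rfl fun k _ => ?_
      rw [Nat.centralBinom]
      rfl
    rw [e]
    exact this
  have h56 : p = 7 ∨ 11 ≤ p := by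
    by_contra h
    push Not at h
    have h1 : p = 6 ∨ p = 8 ∨ p = 9 ∨ p = 10 := by omega
    rcases h1 with h1 | h1 | h1 | h1 <;> (rw [h1] at hp; exact absurd hp (by norm_num))
  rcases h56 with rfl | h11
  · refine ⟨fun h => by omega, fun _ x y hxy => ?_, fun h => by omega⟩
    have hx : x ^ 2 = 9 := by
      push_cast at hxy
      have h1 : y ≤ 1 := by nlinarith
      have h2 : -1 ≤ y := by nlinarith
      have h3 : x ≤ 3 := by nlinarith
      have h4 : -3 ≤ x := by nlinarith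
      interval_cases y
      · linarith
      · exfalso
        interval_cases x <;> norm_num at hxy
      · linarith
    have := tr _ (AA7 wi hwi)
    have hx' : (x : ℚ) ^ 2 = 9 := by exact_mod_cast hx
    rw [hx']
    norm_num at this ⊢
    exact this
  · obtain ⟨h1, h2, h4⟩ := Pool.Agent.H547.e16_main p h11 hwi
    refine ⟨fun hc x y hxy => ?_, fun hc x y hxy => ?_, fun hc => ?_⟩
    · have := tr _ (h1 x y (by omega) hxy)
      push_cast at this
      exact this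
    · have := tr _ (h2 x y (by omega) hxy)
      push_cast at this
      exact this
    · have := tr 0 (by rw [h4 (by omega)]; push_cast; rfl)
      push_cast at this
      exact this

end Pool.Agent.Results.MP_d4c4f0_nt.FranelSixteen
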